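import Pool.Agent.W221.NS.Stm2
import Pool.Agent.W335.MD.CT
import Pool.Agent.W333.MD.PCONT

set_option autoImplicit false

open MeasureTheory Set Metric Filter
open scoped ContDiff Topology ENNReal Pointwise

namespace W382.ME

open H459R3.NS W221.NS

theorem gsq_nonneg (v : V → V) (x : V) : 0 ≤ gsq v x :=
  Finset.sum_nonneg fun i _ => Finset.sum_nonneg fun j _ => sq_nonneg _

theorem nsq_nonneg (v : V → V) (x : V) : 0 ≤ nsq v x :=
  Finset.sum_nonneg fun i _ => sq_nonneg _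

theorem cd_slice {T : ℝ} {u : ℝ → V → V}
    (hu : ContDiffOn ℝ ∞ (fun z : ℝ × V => u z.1 z.2) (Ioo 0 T ×ˢ univ)) {t : ℝ}
    (ht : t ∈ Ioo 0 T) : ContDiff ℝ ∞ (u t) := by
  rw [← contDiffOn_univ]
  exact hu.comp (f := fun x : V => (t, x)) (by fun_prop) (fun x _ => ⟨ht, mem_univ _⟩)

theorem gsq_cont {v : V → V} (hv : ContDiff ℝ ∞ v) : Continuous (gsq v) := by
  unfold gsq pd
  refine continuous_finsetSum _ fun i _ => continuous_finsetSum _ fun j _ => ?_
  have h := ((contDiff_pi.1 hv i).continuous_fderiv (by simp)).clm_apply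
    (continuous_const (y := (Pi.single j 1 : V)))
  exact h.pow 2

theorem nsq_cont {v : V → V} (hv : ContDiff ℝ ∞ v) : Continuous (nsq v) := by
  unfold nsq
  refine continuous_finsetSum _ fun i _ => ?_
  exact ((contDiff_pi.1 hv i).continuous).pow 2

theorem int_ball {f : V → ℝ} (hf : Continuous f) (a : V) (ρ : ℝ) : IntegrableOn f (ball a ρ) :=
  (hf.continuousOn.integrableOn_compact (isCompact_closedBall a ρ)).mono_set ball_subset_closedBall

theorem speed {U : ℝ → V → V} {α β M : ℝ} {X : ℝ → V → V} (hX : Flow2 U α β X)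
    (hM : ∀ t ∈ Ioo α β, ∀ x, ‖U t x‖ ≤ M) {t : ℝ} (ht : t ∈ Ioo α β) (z : V) :
    ‖X β z - X t z‖ ≤ M * (β - t) := by
  have hc : ContinuousOn (fun τ => X τ z) (Icc t β) :=
    hX.cont.comp (f := fun τ : ℝ => (τ, z)) (by fun_prop)
      (fun τ hτ => ⟨⟨ht.1.le.trans hτ.1, hτ.2⟩, mem_univ _⟩)
  have h := norm_image_sub_le_of_norm_deriv_right_le_segment (f' := fun τ => U τ (X τ z)) (C := M) hc
    (fun τ hτ => (hX.ode z τ ⟨ht.1.trans_le hτ.1, hτ.2⟩).hasDerivWithinAt)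
    (fun τ hτ => hM τ ⟨ht.1.trans_le hτ.1, hτ.2⟩ _)
  exact h β ⟨ht.2.le, le_rfl⟩

/-- the contradiction at a singular point -/
theorem point {CL r s M δ : ℝ} (hr : 0 < r) {u : ℝ → V → V} {X : ℝ → V → V} (hM : 0 ≤ M)
    (hX : Flow2 (mol r u) (s - r ^ 2) s X)
    (hMb : ∀ t ∈ Ioo (s - r ^ 2) s, ∀ x, ‖mol r u t x‖ ≤ M)
    (hδ1 : δ ≤ r ^ 2 / 32) (hδ2 : δ ≤ r / 16) (hδ3 : M * δ ≤ r / 16) {x z y : V} {t : ℝ}
    (ht1 : s - δ < t) (ht2 : t < s) (hz : z ∈ ball x (r / 8)) (hy : y ∈ ball x δ)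
    (hloc : ∀ t ∈ Ioo (-1 / 16 : ℝ) 0, ∀ w ∈ ball (0 : V) (1 / 4), ∀ i,
      |frv r s (fun τ => X τ z) u t w i| ≤ CL) : ‖u t y‖ ≤ CL / r + M := by
  have hr2 : 0 < r ^ 2 := by positivity
  have htm : t ∈ Ioo (s - r ^ 2) s := ⟨by linarith, ht2⟩
  have hsp : ‖X s z - X t z‖ ≤ M * (s - t) := speed hX hMb htm z
  rw [hX.fin z] at hsp
  have hsp2 : ‖z - X t z‖ ≤ r / 16 :=
    hsp.trans ((mul_le_mul_of_nonneg_left (by linarith) hM).trans hδ3)
  have hz' : ‖z - x‖ < r / 8 := by rwa [mem_ball, dist_eq_norm] at hz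
  have hy' : ‖y - x‖ < δ := by rwa [mem_ball, dist_eq_norm] at hy
  have h1 : ‖y - X t z‖ < r / 4 := by
    calc ‖y - X t z‖ = ‖(y - x) - (z - x) + (z - X t z)‖ := by congr 1; abel
      _ ≤ ‖(y - x) - (z - x)‖ + ‖z - X t z‖ := norm_add_le _ _
      _ ≤ ‖y - x‖ + ‖z - x‖ + ‖z - X t z‖ := by gcongr; exact norm_sub_le _ _
      _ < r / 4 := by linarith
  have hw : r⁻¹ • (y - X t z) ∈ ball (0 : V) (1 / 4) := by
    rw [mem_ball, dist_zero_right, norm_smul, norm_inv, Real.norm_eq_abs, abs_of_pos hr]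
    rw [inv_mul_lt_iff₀ hr]
    linarith
  have ht' : (t - s) / r ^ 2 ∈ Ioo (-1 / 16 : ℝ) 0 := by
    constructor
    · rw [lt_div_iff₀ hr2]
      linarith
    · exact div_neg_of_neg_of_pos (by linarith) hr2
  have e1 : s + r ^ 2 * ((t - s) / r ^ 2) = t := by
    field_simp
    ring
  have e2 : X t z + r • (r⁻¹ • (y - X t z)) = y := by
    rw [smul_smul, mul_inv_cancel₀ hr.ne', one_smul]
    abel
  have hCL : 0 ≤ CL := (abs_nonneg _).trans (hloc _ ht' _ hw 0)
  rw [pi_norm_le_iff_of_nonneg (by positivity)]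
  intro i
  have h2 := hloc _ ht' _ hw i
  unfold frv at h2
  simp only at h2
  rw [e1, e2] at h2
  have hd : HasDerivAt (fun τ => X τ z i) (mol r u t (X t z) i) t :=
    (hasDerivAt_pi.1 (hX.ode z t htm)) i
  rw [hd.deriv, abs_mul, abs_of_pos hr] at h2
  have h3 : |u t y i - mol r u t (X t z) i| ≤ CL / r := by
    rw [le_div_iff₀ hr, mul_comm]
    exact h2
  have h4 : |mol r u t (X t z) i| ≤ M :=
    (norm_le_pi_norm (mol r u t (X t z)) i).trans (hMb t htm _)
  rw [Real.norm_eq_abs]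
  calc |u t y i| = |(u t y i - mol r u t (X t z) i) + mol r u t (X t z) i| := by
        rw [sub_add_cancel]
    _ ≤ |u t y i - mol r u t (X t z) i| + |mol r u t (X t z) i| := abs_add_le _ _
    _ ≤ _ := add_le_add h3 h4

theorem pd_scale {v : V → V} (hv : ContDiff ℝ ∞ v) (r : ℝ) (a c : V) (i j : Fin 3) (w : V) :
    pd j (fun y => r * (v (a + r • y) i - c i)) w
      = r ^ 2 * pd j (fun y => v y i) (a + r • w) := by
  have h1 : HasFDerivAt (fun y => v y i) (fderiv ℝ (fun y => v y i) (a + r • w)) (a + r • w) :=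
    ((contDiff_pi.1 hv i).differentiable (by simp) _).hasFDerivAt
  have h2 : HasFDerivAt (fun y : V => a + r • y) (r • ContinuousLinearMap.id ℝ V) w :=
    ((hasFDerivAt_id w).const_smul r).const_add a
  have h3 := ((h1.comp w h2).sub_const (c i)).const_mul r
  unfold pd
  have h4 : fderiv ℝ (fun y => r * (v (a + r • y) i - c i)) w = _ := h3.fderiv
  rw [h4]
  simp
  ring

theorem gsq_frv {u : ℝ → V → V} {r s t : ℝ} {X : ℝ → V} (hv : ContDiff ℝ ∞ (u (s + r ^ 2 * t)))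
    (w : V) : gsq (frv r s X u t) w
      = r ^ 4 * gsq (u (s + r ^ 2 * t)) (X (s + r ^ 2 * t) + r • w) := by
  unfold gsq
  rw [Finset.mul_sum]
  refine Finset.sum_congr rfl fun i _ => ?_
  rw [Finset.mul_sum]
  refine Finset.sum_congr rfl fun j _ => ?_
  have h := pd_scale hv r (X (s + r ^ 2 * t)) (fun i => deriv (fun τ => X τ i) (s + r ^ 2 * t)) i j w
  change pd j (fun y => frv r s X u t y i) w = _ at h
  rw [h]
  ring

theorem cov (F : V → ℝ) (a : V) {r ρ : ℝ} (hr : 0 < r) :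
    ∫ w in ball (0 : V) ρ, F (a + r • w) = (r ^ 3)⁻¹ * ∫ y in ball a (r * ρ), F y := by
  have h := Measure.setIntegral_comp_smul_of_pos volume (fun x => F (a + x)) (ball (0 : V) ρ) hr
  have h3 : Module.finrank ℝ V = 3 := by simp
  rw [h3, _root_.smul_ball hr.ne', smul_zero, Real.norm_eq_abs, abs_of_pos hr] at h
  rw [h, smul_eq_mul]
  congr 1
  rw [← integral_indicator measurableSet_ball, ← integral_indicator measurableSet_ball,
    ← integral_add_left_eq_self (μ := (volume : Measure V)) ((ball a (r * ρ)).indicator F) a]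
  congr 1
  ext x
  by_cases hx : x ∈ ball (0 : V) (r * ρ)
  · have hx' : a + x ∈ ball a (r * ρ) := by
      rw [mem_ball, dist_eq_norm, add_sub_cancel_left]
      rwa [mem_ball, dist_zero_right] at hx
    rw [indicator_of_mem hx, indicator_of_mem hx']
  · have hx' : a + x ∉ ball a (r * ρ) := by
      rw [mem_ball, dist_eq_norm, add_sub_cancel_left]
      rwa [mem_ball, dist_zero_right] at hx
    rw [indicator_of_notMem hx, indicator_of_notMem hx']

theorem B2_frv {u : ℝ → V → V} {r s t ρ : ℝ} {X : ℝ → V} (hr : 0 < r)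
    (hv : ContDiff ℝ ∞ (u (s + r ^ 2 * t))) :
    B2 0 ρ (frv r s X u t) = r * ∫ y in ball (X (s + r ^ 2 * t)) (r * ρ), gsq (u (s + r ^ 2 * t)) y := by
  unfold B2
  have h : ∀ z, gsq (frv r s X u t) z
      = r ^ 4 * gsq (u (s + r ^ 2 * t)) (X (s + r ^ 2 * t) + r • z) := fun z => gsq_frv hv z
  simp_rw [h]
  rw [integral_const_mul, cov _ _ hr]
  field_simp

theorem A2_bd {u : V → V} (hv : ContDiff ℝ ∞ u) (hI : Integrable (nsq u)) {E M r : ℝ}
    (hE : ∫ x, nsq u x ≤ E ^ 2) (hr : 0 < r) (a c : V) (hc : ∀ i, |c i| ≤ M) :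
    A2 0 4 (fun z i => r * (u (a + r • z) i - c i)) ≤ 2 * r ^ 2 * ((r ^ 3)⁻¹ * E ^ 2 + 1536 * M ^ 2) := by
  unfold A2
  have hcont : Continuous (fun z => nsq u (a + r • z)) := (nsq_cont hv).comp (by fun_prop)
  have hpt : ∀ z, nsq (fun z i => r * (u (a + r • z) i - c i)) z
      ≤ 2 * r ^ 2 * (nsq u (a + r • z) + 3 * M ^ 2) := by
    intro z
    unfold nsq
    simp only [Fin.sum_univ_three]
    have hci : ∀ i, c i ^ 2 ≤ M ^ 2 := fun i => by
      rw [← sq_abs (c i)]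
      exact pow_le_pow_left₀ (abs_nonneg _) (hc i) 2
    have key : ∀ i, (r * (u (a + r • z) i - c i)) ^ 2 ≤ 2 * r ^ 2 * (u (a + r • z) i ^ 2 + M ^ 2) := by
      intro i
      have e1 : (u (a + r • z) i - c i) ^ 2 ≤ 2 * (u (a + r • z) i ^ 2 + M ^ 2) := by
        nlinarith [sq_nonneg (u (a + r • z) i + c i), hci i]
      calc (r * (u (a + r • z) i - c i)) ^ 2 = r ^ 2 * (u (a + r • z) i - c i) ^ 2 := by ring
        _ ≤ r ^ 2 * (2 * (u (a + r • z) i ^ 2 + M ^ 2)) := by gcongr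
        _ = _ := by ring
    linarith [key 0, key 1, key 2]
  have hcd : Continuous (fun z : V => nsq (fun z i => r * (u (a + r • z) i - c i)) z) := by
    unfold nsq
    refine continuous_finsetSum _ fun i _ => ?_
    have : Continuous (fun y => u y i) := (contDiff_pi.1 hv i).continuous
    have h2 : Continuous (fun y : V => u (a + r • y) i) := this.comp (by fun_prop)
    fun_prop
  have hvol : volume.real (ball (0 : V) 4) = 512 := by
    rw [Measure.real, Real.volume_pi_ball _ (by norm_num)]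
    simp
    norm_num
  calc ∫ z in ball (0 : V) 4, nsq (fun z i => r * (u (a + r • z) i - c i)) z
      ≤ ∫ z in ball (0 : V) 4, 2 * r ^ 2 * (nsq u (a + r • z) + 3 * M ^ 2) := by
        apply setIntegral_mono_on (int_ball hcd _ _) (int_ball (by fun_prop) _ _) measurableSet_ball
        exact fun z _ => hpt z
    _ = 2 * r ^ 2 * ((∫ z in ball (0 : V) 4, nsq u (a + r • z)) + 512 * (3 * M ^ 2)) := by
        rw [integral_const_mul, integral_add (int_ball hcont _ _) (int_ball continuous_const _ _),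
          setIntegral_const, hvol, smul_eq_mul]
    _ ≤ 2 * r ^ 2 * ((r ^ 3)⁻¹ * E ^ 2 + 512 * (3 * M ^ 2)) := by
        rw [cov _ _ hr]
        gcongr
        exact (setIntegral_le_integral hI (Eventually.of_forall fun x => nsq_nonneg u x)).trans hE
    _ = _ := by ring

/-- The counting argument: integration of a lower bound over disjoint balls. -/
theorem pack {H : V → ℝ≥0∞} {c : ℝ≥0∞} {r : ℝ} (hr : 0 < r) (S : Finset V)
    (hsep : ∀ x ∈ S, ∀ y ∈ S, x ≠ y → r / 4 ≤ ‖x - y‖)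
    (hH : ∀ x ∈ S, ∀ z ∈ ball x (r / 8), c ≤ H z) :
    S.card * (c * ENNReal.ofReal ((r / 4) ^ 3)) ≤ ∫⁻ x, H x := by
  have hd : Set.PairwiseDisjoint (↑S) (fun x : V => ball x (r / 8)) := by
    intro x hx y hy hxy
    refine ball_disjoint_ball ?_
    rw [dist_eq_norm]
    have := hsep x hx y hy hxy
    linarith
  calc S.card * (c * ENNReal.ofReal ((r / 4) ^ 3))
      = ∑ x ∈ S, ∫⁻ _ in ball x (r / 8), c := by
        have : ∀ x ∈ S, ∫⁻ _ in ball x (r / 8), c = c * ENNReal.ofReal ((r / 4) ^ 3) := by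
          intro x _
          rw [setLIntegral_const, Real.volume_pi_ball _ (by positivity)]
          congr 2
          simp
          ring
        rw [Finset.sum_congr rfl this, Finset.sum_const, nsmul_eq_mul]
    _ ≤ ∑ x ∈ S, ∫⁻ z in ball x (r / 8), H z := by
        refine Finset.sum_le_sum fun x hx => ?_
        exact setLIntegral_mono' measurableSet_ball fun z hz => hH x hx z hz
    _ = ∫⁻ z in ⋃ x ∈ S, ball x (r / 8), H z := by
        rw [lintegral_biUnion_finset hd fun _ _ => measurableSet_ball]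
    _ ≤ _ := setLIntegral_le_lintegral _ _

theorem t_COUNT2 (h1 : S_LOCAL) (h2 : S_MOLL2) (h3 : S_FLOWX2) (h4 : S_FLOWM2) (h5 : S_FRAME2)
    (h6 : S_MARK2) : S_COUNT2 := by
  obtain ⟨ε, CL, hε, hCL, hloc⟩ := h1
  obtain ⟨CM, hCM, hmol⟩ := h2
  refine ⟨9 + CM + 3 * 4096 * 64 / ε, by positivity, ?_⟩
  intro T κ E O u p hκ hE hsol r hr hrT hκr S hS hO hsep
  have hr2 : 0 < r ^ 2 := by positivity
  have hsr0 : 0 < √r := Real.sqrt_pos.2 hr
  have hss : √r * √r = r := Real.mul_self_sqrt hr.le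
  have hsr : √(r ^ 3) = r * √r := by
    rw [show r ^ 3 = r ^ 2 * r by ring, Real.sqrt_mul (by positivity), Real.sqrt_sq hr.le]
  obtain ⟨L, hgood⟩ := hmol T κ E O u p hκ hE hsol r hr
  have hMr : CM * E / √(r ^ 3) * r ^ 2 = CM * E * √r := by
    rw [hsr, div_mul_eq_mul_div, div_eq_iff (by positivity)]
    calc CM * E * r ^ 2 = CM * E * (r * (√r * √r)) := by rw [hss]; ring
      _ = _ := by ring
  have hκ' : CM * κ / √(r ^ 3) * r ^ 2 ≤ 1 := by
    have e : CM * κ / √(r ^ 3) * r ^ 2 = CM * κ * √r := by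
      rw [hsr, div_mul_eq_mul_div, div_eq_iff (by positivity)]
      calc CM * κ * r ^ 2 = CM * κ * (r * (√r * √r)) := by rw [hss]; ring
        _ = _ := by ring
    rw [e]
    refine le_trans ?_ hκr
    have : 0 ≤ 3 * 4096 * 64 / ε := by positivity
    gcongr
    linarith
  set M := CM * E / √(r ^ 3) with hMdef
  have hM0 : 0 ≤ M := by positivity
  obtain ⟨δ, hδ0, hδ1, hδ2, hδ3⟩ : ∃ δ : ℝ, 0 < δ ∧ δ ≤ r ^ 2 / 32 ∧ δ ≤ r / 16 ∧ M * δ ≤ r / 16 := by
    refine ⟨min (r ^ 2 / 32) (r / 16 / (M + 1)), by positivity, min_le_left _ _, ?_, ?_⟩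
    · refine (min_le_right _ _).trans (div_le_self (by positivity) (by linarith))
    · calc M * min (r ^ 2 / 32) (r / 16 / (M + 1)) ≤ (M + 1) * (r / 16 / (M + 1)) := by
            apply mul_le_mul (by linarith) (min_le_right _ _) (by positivity) (by positivity)
        _ = r / 16 := by field_simp
  set Q := CL * (1 + √(2 * r ^ 2 * ((r ^ 3)⁻¹ * E ^ 2 + 1536 * M ^ 2))) with hQ
  have hsing : ∀ x : V, ∃ t : ℝ, ∃ y : V, x ∈ S → (t ∈ Ioo (T - δ) T ∧ y ∈ ball x δ ∧
      Q / r + M < ‖u t y‖) := by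
    intro x
    by_cases hx : x ∈ S
    · obtain ⟨t, ht, y, hy, h⟩ := hS x hx δ hδ0 (Q / r + M)
      exact ⟨t, y, fun _ => ⟨ht, hy, h⟩⟩
    · exact ⟨0, 0, fun h => absurd h hx⟩
  choose tx yx htx using hsing
  obtain ⟨s, hs1, hs2, hs3⟩ : ∃ s, T - δ < s ∧ s < T ∧ ∀ x ∈ S, tx x < s := by
    have e1 : ∀ᶠ s in 𝓝[<] T, s ∈ Ioo (T - δ) T := Ioo_mem_nhdsLT (by linarith)
    have e2 : ∀ᶠ s in 𝓝[<] T, ∀ x ∈ S, tx x < s := by
      rw [Finset.eventually_all]
      intro x hx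
      filter_upwards [Ioo_mem_nhdsLT (htx x hx).1.2] with s hs
      exact hs.1
    obtain ⟨s, h1, h2⟩ := (e1.and e2).exists
    exact ⟨s, h1.1, h1.2, h2⟩
  have hrs : r ^ 2 < s := by linarith
  have hα : 0 < s - r ^ 2 := by linarith
  have hαβ : s - r ^ 2 < s := by linarith
  obtain ⟨X, hX⟩ := h3 T M L _ (mol r u) hgood (s - r ^ 2) s hα hαβ hs2
  have hmeas := h4 T M L _ (mol r u) hgood (s - r ^ 2) s hα hαβ hs2 X hX
  have hMb : ∀ t ∈ Ioo (s - r ^ 2) s, ∀ x, ‖mol r u t x‖ ≤ M := fun t ht x =>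
    hgood.bd t ⟨hα.trans ht.1, ht.2.trans hs2⟩ x
  have hmark := h6 T κ E O u p hsol r s hr hrs hs2 X _ hX.cont hmeas
  have hexp : Real.exp (CM * κ / √(r ^ 3) * (s - (s - r ^ 2))) ≤ 3 := by
    rw [sub_sub_cancel]
    calc Real.exp (CM * κ / √(r ^ 3) * r ^ 2) ≤ Real.exp 1 := Real.exp_le_exp.2 hκ'
      _ ≤ 3 := by linarith [Real.exp_one_lt_d9]
  have hclaim : ∀ x ∈ S, ∀ z ∈ ball x (r / 8), ENNReal.ofReal (ε / r) ≤
      ∫⁻ t in Ioo (-1 : ℝ) 0, ∫⁻ y in ball (X (s + r ^ 2 * t) z) (8 * r) ∩ O,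
          ENNReal.ofReal (gsq (u (s + r ^ 2 * t)) y) := by
    intro x hx z hz
    by_contra hlt
    rw [not_le] at hlt
    have hz' : ‖z - x‖ < r / 8 := by rwa [mem_ball, dist_eq_norm] at hz
    have htube : ∀ t ∈ Ioo (s - r ^ 2) s, ball (X t z) (8 * r) ⊆ O := by
      intro t ht
      refine subset_trans ?_ (hO x hx)
      intro y hy
      rw [mem_ball, dist_eq_norm] at hy ⊢
      have hsp : ‖X s z - X t z‖ ≤ M * (s - t) := speed hX hMb ht z
      rw [hX.fin z] at hsp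
      have hsp2 : ‖z - X t z‖ ≤ CM * E * √r := by
        rw [← hMr]
        exact hsp.trans (mul_le_mul_of_nonneg_left (by linarith [ht.1]) hM0)
      have h1 : ‖y - x‖ < 8 * r + CM * E * √r + r / 8 := by
        calc ‖y - x‖ = ‖(y - X t z) - (z - X t z) + (z - x)‖ := by congr 1; abel
          _ ≤ ‖(y - X t z) - (z - X t z)‖ + ‖z - x‖ := norm_add_le _ _
          _ ≤ ‖y - X t z‖ + ‖z - X t z‖ + ‖z - x‖ := by gcongr; exact norm_sub_le _ _
          _ < _ := by linarith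
      have hA : 0 ≤ 3 * 4096 * 64 / ε := by positivity
      have hB : 0 ≤ E * √r := by positivity
      nlinarith [mul_nonneg hA hr.le, mul_nonneg hA hB, mul_nonneg hCM.le hr.le]
    have hsm : ContDiffOn ℝ ∞ (fun τ => X τ z) (Ioo (s - r ^ 2) s) := hX.smooth z
    have hode : ∀ t ∈ Ioo (s - r ^ 2) s,
        HasDerivAt (fun τ => X τ z) (mol r u t ((fun τ => X τ z) t)) t := fun t ht => hX.ode z t ht
    have hL2 := h5 T κ E O u p hsol r s hr hrs hs2 (fun τ => X τ z) hsm hode htube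
    have htime : ∀ t ∈ Ioo (-1 : ℝ) 0, s + r ^ 2 * t ∈ Ioo (s - r ^ 2) s := by
      intro t ht
      have a1 : r ^ 2 * (-1) < r ^ 2 * t := (mul_lt_mul_iff_right₀ hr2).2 ht.1
      have a2 : r ^ 2 * t < r ^ 2 * 0 := (mul_lt_mul_iff_right₀ hr2).2 ht.2
      constructor <;> linarith
    have hT' : ∀ t ∈ Ioo (-1 : ℝ) 0, s + r ^ 2 * t ∈ Ioo 0 T := fun t ht =>
      ⟨hα.trans (htime t ht).1, (htime t ht).2.trans hs2⟩
    have hcd : ∀ t ∈ Ioo (-1 : ℝ) 0, ContDiff ℝ ∞ (u (s + r ^ 2 * t)) := fun t ht =>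
      cd_slice hsol.smooth_u (hT' t ht)
    have hB0 : ∀ t, 0 ≤ B2 0 8 (frv r s (fun τ => X τ z) u t) := fun t =>
      setIntegral_nonneg measurableSet_ball fun w _ => gsq_nonneg _ w
    have hBl : ∀ t ∈ Ioo (-1 : ℝ) 0, ENNReal.ofReal (B2 0 8 (frv r s (fun τ => X τ z) u t))
        = ENNReal.ofReal r * ∫⁻ y in ball (X (s + r ^ 2 * t) z) (8 * r) ∩ O,
          ENNReal.ofReal (gsq (u (s + r ^ 2 * t)) y) := by
      intro t ht
      rw [inter_eq_self_of_subset_left (htube _ (htime t ht)), B2_frv hr (hcd t ht),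
        ENNReal.ofReal_mul hr.le, mul_comm r 8]
      congr 1
      exact ofReal_integral_eq_lintegral_ofReal (int_ball (gsq_cont (hcd t ht)) _ _)
        (Eventually.of_forall fun y => gsq_nonneg _ y)
    have hcont : ContinuousOn (fun t => B2 0 8 (frv r s (fun τ => X τ z) u t)) (Ioo (-1) 0) :=
      ((W335.MD.t_CT Pool.Agent.W333.MD.t_PCONT (-1) 0 _ hL2.smooth_v).1 0 8).2
    have hlint : ∫⁻ t in Ioo (-1 : ℝ) 0, ENNReal.ofReal (B2 0 8 (frv r s (fun τ => X τ z) u t))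
        < ENNReal.ofReal ε := by
      rw [setLIntegral_congr_fun measurableSet_Ioo hBl, lintegral_const_mul' _ _ ENNReal.ofReal_ne_top]
      have : ENNReal.ofReal ε = ENNReal.ofReal r * ENNReal.ofReal (ε / r) := by
        rw [← ENNReal.ofReal_mul hr.le]
        congr 1
        field_simp
      rw [this]
      exact ENNReal.mul_lt_mul_right (by simpa using hr) ENNReal.ofReal_ne_top hlt
    have hInt : IntegrableOn (fun t => B2 0 8 (frv r s (fun τ => X τ z) u t)) (Ioo (-1) 0) := by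
      refine ⟨hcont.aestronglyMeasurable measurableSet_Ioo, ?_⟩
      rw [hasFiniteIntegral_iff_ofReal (Eventually.of_forall hB0)]
      exact hlint.trans ENNReal.ofReal_lt_top
    have hle : ∫ t in Ioo (-1 : ℝ) 0, B2 0 8 (frv r s (fun τ => X τ z) u t) ≤ ε := by
      rw [← ofReal_integral_eq_lintegral_ofReal hInt (Eventually.of_forall hB0)] at hlint
      exact ((ENNReal.ofReal_lt_ofReal_iff hε).1 hlint).le
    have hl := hloc _ _ hL2 hInt hle
    have hl' : ∀ t ∈ Ioo (-1 / 16 : ℝ) 0, ∀ w ∈ ball (0 : V) (1 / 4), ∀ i,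
        |frv r s (fun τ => X τ z) u t w i| ≤ Q := by
      intro t ht w hw i
      refine (hl t ht w hw i).trans ?_
      have ht' : t ∈ Ioo (-1 : ℝ) 0 := ⟨by linarith [ht.1], ht.2⟩
      have hA2 : A2 0 4 (frv r s (fun τ => X τ z) u t)
          ≤ 2 * r ^ 2 * ((r ^ 3)⁻¹ * E ^ 2 + 1536 * M ^ 2) := by
        refine A2_bd (hcd t ht') (hsol.en_int _ (hT' t ht')) (hsol.en _ (hT' t ht')) hr
          (X (s + r ^ 2 * t) z) (fun i => deriv (fun τ => X τ z i) (s + r ^ 2 * t)) ?_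
        intro i
        have hd : HasDerivAt (fun τ => X τ z i) (mol r u (s + r ^ 2 * t) (X (s + r ^ 2 * t) z) i)
            (s + r ^ 2 * t) := (hasDerivAt_pi.1 (hX.ode z _ (htime t ht'))) i
        rw [hd.deriv]
        exact (norm_le_pi_norm (mol r u _ (X _ z)) i).trans (hMb _ (htime t ht') _)
      rw [hQ]
      gcongr
    obtain ⟨ht, hy, hbig⟩ := htx x hx
    have := point (CL := Q) hr hM0 hX hMb hδ1 hδ2 hδ3 (t := tx x) (by linarith [ht.1]) (hs3 x hx)
      hz hy hl'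
    linarith
  have hpack := pack hr S hsep hclaim
  set J := ∫⁻ τ in Ioo (T - 2 * r ^ 2) T, ∫⁻ y in O, ENNReal.ofReal (gsq (u τ) y) with hJ
  have hmono : ∫⁻ τ in Ioo (s - r ^ 2) s, ∫⁻ y in O, ENNReal.ofReal (gsq (u τ) y) ≤ J :=
    lintegral_mono_set (Ioo_subset_Ioo (by linarith) hs2.le)
  have hfin : S.card * (ENNReal.ofReal (ε / r) * ENNReal.ofReal ((r / 4) ^ 3))
      ≤ ENNReal.ofReal 3 * ENNReal.ofReal (4096 * r) * J := by
    refine (hpack.trans hmark).trans ?_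
    gcongr
  have hk : ENNReal.ofReal (64 / (ε * r)) * (S.card * (ENNReal.ofReal (ε / r) *
      ENNReal.ofReal ((r / 4) ^ 3))) ≤ ENNReal.ofReal (64 / (ε * r)) *
        (ENNReal.ofReal 3 * ENNReal.ofReal (4096 * r) * J) := by gcongr
  calc ENNReal.ofReal (S.card * r) = ENNReal.ofReal (64 / (ε * r)) *
        (S.card * (ENNReal.ofReal (ε / r) * ENNReal.ofReal ((r / 4) ^ 3))) := by
        rw [← ENNReal.ofReal_mul (by positivity), ← ENNReal.ofReal_natCast S.card,
          ← ENNReal.ofReal_mul (by positivity), ← ENNReal.ofReal_mul (by positivity)]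
        congr 1
        field_simp
        ring
    _ ≤ _ := hk
    _ = ENNReal.ofReal (3 * 4096 * 64 / ε) * J := by
        rw [← mul_assoc, ← ENNReal.ofReal_mul (by positivity), ← ENNReal.ofReal_mul (by positivity)]
        congr 2
        field_simp
    _ ≤ _ := by
        gcongr
        linarith

end W382.ME
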